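import Pool.Agent.Y184.RB.Base

/-! Project RB (helper184): plurisubharmonic functions are constant along null curves. -/

set_option autoImplicit false

open Set Topology Filter
open scoped ContDiff Manifold Real

namespace Pool.Agent.Y684.RB

open Pool.Agent.Y184.RB

theorem real_of_complex {n : ℕ} {Y : Type} [TopologicalSpace Y] [ChartedSpace (En n) Y] {f : ℂ → Y}
    {x : ℂ} (h : ContMDiffAt 𝓘(ℂ, ℂ) 𝓘(ℂ, En n) ω f x) :
    ContMDiffAt 𝓘(ℝ, ℂ) 𝓘(ℝ, En n) ∞ f x := by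
  rw [contMDiffAt_iff] at h ⊢
  refine ⟨h.1, ?_⟩
  have h2 : ContDiffWithinAt ℝ ω _ _ _ := h.2.restrict_scalars ℝ
  exact h2.of_le le_top

lemma lap_trans (F : ℂ → ℝ) (c : ℂ) :
    Laplacian.laplacian (fun ζ : ℂ => F (ζ + c)) 0 = Laplacian.laplacian F c := by
  rw [InnerProductSpace.laplacian_eq_iteratedFDeriv_complexPlane,
    InnerProductSpace.laplacian_eq_iteratedFDeriv_complexPlane]
  simp only [iteratedFDeriv_comp_add_right, zero_add]

/-- a continuous function bounded by `m` on a circle with circle average at least `m` is `m` on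
the circle -/
theorem circ (v : ℂ → ℝ) (x : ℂ) (r m : ℝ) (hr : 0 < r)
    (hc : Continuous fun θ : ℝ => v (circleMap x r θ))
    (hle : ∀ y, ‖y - x‖ = r → v y ≤ m) (hav : m ≤ Real.circleAverage v x r) :
    ∀ y, ‖y - x‖ = r → v y = m := by
  intro y hy
  by_contra hne
  have hlt : v y < m := lt_of_le_of_ne (hle y hy) hne
  have hy' : y ∈ circleMap x r '' Ioc 0 (2 * π) := by
    rw [image_circleMap_Ioc, mem_sphere_iff_norm, hy, abs_of_pos hr]
  obtain ⟨θ, hθ, rfl⟩ := hy'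
  have hpi : (0 : ℝ) < 2 * π := by positivity
  have hnorm : ∀ t : ℝ, ‖circleMap x r t - x‖ = r := by
    intro t
    simp [circleMap, abs_of_pos hr]
  have hpos : 0 < ∫ t in (0:ℝ)..2 * π, (m - v (circleMap x r t)) := by
    refine intervalIntegral.integral_pos hpi (continuous_const.sub hc).continuousOn
      (fun t _ => sub_nonneg.2 (hle _ (hnorm t))) ⟨θ, Ioc_subset_Icc_self hθ, sub_pos.2 hlt⟩
  rw [intervalIntegral.integral_sub (continuous_const.intervalIntegrable _ _)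
    (hc.intervalIntegrable _ _), intervalIntegral.integral_const, smul_eq_mul, sub_zero] at hpos
  rw [Real.circleAverage_def, smul_eq_mul] at hav
  have h5 : 2 * π * m ≤ 2 * π * ((2 * π)⁻¹ * ∫ t in (0:ℝ)..2 * π, v (circleMap x r t)) :=
    mul_le_mul_of_nonneg_left hav hpi.le
  rw [← mul_assoc, mul_inv_cancel₀ hpi.ne', one_mul] at h5
  linarith

theorem null : StNull := by
  intro n Y _ _ hY θ φ A hφ p q hN
  obtain ⟨S, τS, chS, h, hS, hcS, hconS, hh, hrA, ⟨s1, rfl⟩, ⟨s2, rfl⟩, hnull⟩ := hN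
  have hg : Continuous (fun s => φ (h s)) := hφ.1.comp hh.continuous
  obtain ⟨sM, hmax⟩ : ∃ sM, ∀ s, φ (h s) ≤ φ (h sM) := by
    obtain ⟨sM, _, hM⟩ := isCompact_univ.exists_isMaxOn (univ_nonempty (α := S)) hg.continuousOn
    exact ⟨sM, fun s => hM (mem_univ s)⟩
  have hcl : IsClosed {s | φ (h s) = φ (h sM)} := isClosed_eq hg continuous_const
  have hop : IsOpen {s | φ (h s) = φ (h sM)} := by
    rw [isOpen_iff_mem_nhds]
    intro s0 hs0
    have hs0' : φ (h s0) = φ (h sM) := hs0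
    obtain ⟨e, he⟩ : ∃ e, e = chartAt ℂ s0 := ⟨_, rfl⟩
    obtain ⟨H, hHd⟩ : ∃ H : ℂ → Y, H = fun z => h (e.symm z) := ⟨_, rfl⟩
    obtain ⟨z0, hz0⟩ : ∃ z0 : ℂ, z0 = e s0 := ⟨_, rfl⟩
    have hsrc : s0 ∈ e.source := by rw [he]; exact mem_chart_source ℂ s0
    have hz0t : z0 ∈ e.target := by rw [hz0]; exact e.map_source hsrc
    have hH0 : H z0 = h s0 := by rw [hHd, hz0]; exact congrArg h (e.left_inv hsrc)
    have hsan : ∀ z ∈ e.target, ContMDiffAt 𝓘(ℂ, ℂ) 𝓘(ℂ, ℂ) ω e.symm z := by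
      intro z hz
      have h1 : ContMDiffOn 𝓘(ℂ, ℂ) 𝓘(ℂ, ℂ) ω e.symm e.target := by
        rw [he]; exact contMDiffOn_chart_symm
      exact h1.contMDiffAt (e.open_target.mem_nhds hz)
    have hHan : ∀ z ∈ e.target, ContMDiffAt 𝓘(ℂ, ℂ) 𝓘(ℂ, En n) ω H z := by
      intro z hz
      rw [hHd]
      exact ContMDiffAt.comp z (hh.contMDiffAt) (hsan z hz)
    obtain ⟨N, hNn, hpshN⟩ := hφ.2 (h s0)
    have hkc : Tendsto H (𝓝 z0) (𝓝 (h s0)) := by
      rw [← hH0]
      exact (hHan z0 hz0t).continuousAt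
    have e1 : ∀ᶠ t in 𝓝 z0, t ∈ e.target := e.open_target.mem_nhds hz0t
    have e2 := hkc.eventually (θ.smooth (h s0))
    have e3 := hkc.eventually (θ.compat (h s0))
    have e5 : ∀ᶠ t in 𝓝 z0, H t ∈ N := hkc hNn
    obtain ⟨R, hR, hball⟩ := Metric.eventually_nhds_iff.1 (((e1.and e2).and e3).and e5)
    obtain ⟨D, hD⟩ : ∃ D : ℂ → ℝ, D = fun t => θ.pot (h s0) (H t) := ⟨_, rfl⟩
    have potc : ∀ (r : Y) (z : ℂ), z ∈ e.target →
        ContMDiffAt 𝓘(ℝ, En n) 𝓘(ℝ, ℝ) ∞ (θ.pot r) (H z) →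
        ContDiffAt ℝ 2 (fun t => θ.pot r (H t)) z := by
      intro r z hz hs
      have h1 := real_of_complex (hHan z hz)
      have h2 : ContMDiffAt 𝓘(ℝ, ℂ) 𝓘(ℝ, ℝ) ∞ (θ.pot r ∘ H) z := ContMDiffAt.comp z hs h1
      exact (contMDiffAt_iff_contDiffAt.1 h2).of_le (by norm_cast)
    have trans_an : ∀ z w : ℂ, ContDiffAt ℂ ω (fun ζ : ℂ => ζ + z) w := fun z w =>
      contDiffAt_id.add contDiffAt_const
    have hsmD : ∀ t, dist t z0 < R → ContDiffAt ℝ 2 D t := by
      intro t ht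
      obtain ⟨⟨⟨a1, a2⟩, a3⟩, a5⟩ := hball ht
      rw [hD]
      exact potc _ t a1 a2
    have hlap : ∀ t, dist t z0 < R → Laplacian.laplacian D t = 0 := by
      intro t ht
      obtain ⟨⟨⟨a1, a2⟩, a3⟩, a5⟩ := hball ht
      have hs' : ContMDiffAt 𝓘(ℝ, En n) 𝓘(ℝ, ℝ) ∞ (θ.pot (H t)) (H t) :=
        (θ.smooth (H t)).self_of_nhds
      -- the disc through `t`
      have hf0 : (fun ζ : ℂ => H (ζ + t)) 0 = H t := by
        show H (0 + t) = H t
        rw [zero_add]
      have hdS : ContMDiffAt 𝓘(ℂ, ℂ) 𝓘(ℂ, ℂ) ω (fun ζ : ℂ => e.symm (ζ + t)) 0 := by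
        have h1 : ContMDiffAt 𝓘(ℂ, ℂ) 𝓘(ℂ, ℂ) ω e.symm ((0 : ℂ) + t) := by
          rw [zero_add]; exact hsan t a1
        exact ContMDiffAt.comp (0 : ℂ) h1 (contMDiffAt_iff_contDiffAt.2 (trans_an t 0))
      have hd : IsDisc n (fun ζ : ℂ => H (ζ + t)) := by
        have h1 : ContMDiffAt 𝓘(ℂ, ℂ) 𝓘(ℂ, En n) ω H ((0 : ℂ) + t) := by
          rw [zero_add]; exact hHan t a1
        exact ContMDiffAt.comp (0 : ℂ) h1 (contMDiffAt_iff_contDiffAt.2 (trans_an t 0))
      have h1 : θ.val (fun ζ : ℂ => H (ζ + t)) = 0 := by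
        rw [hHd]
        exact hnull _ hdS
      have h2 : θ.val (fun ζ : ℂ => H (ζ + t)) =
          Laplacian.laplacian (fun ζ : ℂ => θ.pot (H t) (H (ζ + t))) 0 := by
        unfold Form.val
        simp only [zero_add]
      have h3 := a3 _ hd hf0
      have tr2 : ∀ G : ℂ → ℝ, ContDiffAt ℝ 2 G t → ContDiffAt ℝ 2 (fun ζ : ℂ => G (ζ + t)) 0 := by
        intro G hG
        have q1 : ContDiffAt ℝ 2 G ((0 : ℂ) + t) := by rw [zero_add]; exact hG
        exact ContDiffAt.comp (0 : ℂ) q1 (contDiffAt_id.add contDiffAt_const)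
      have c1 := tr2 _ (potc _ t a1 a2)
      have c2 := tr2 _ (potc _ t a1 hs')
      have h4 : Laplacian.laplacian (fun ζ : ℂ => θ.pot (h s0) (H (ζ + t)) -
          θ.pot (H t) (H (ζ + t))) 0 =
          Laplacian.laplacian (fun ζ : ℂ => θ.pot (h s0) (H (ζ + t))) 0 -
            Laplacian.laplacian (fun ζ : ℂ => θ.pot (H t) (H (ζ + t))) 0 :=
        c1.laplacian_sub c2
      rw [h4, ← h2, h1, sub_zero] at h3
      rw [← lap_trans D t, hD]
      exact h3
    -- the submean value property at `z0`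
    have sub : ∀ ρ : ℝ, 0 < ρ → ρ < R → ∀ y : ℂ, ‖y - 0‖ = 1 → φ (H (z0 + ρ * y)) = φ (h sM) := by
      intro ρ hρ hρR
      have hin : ∀ ζ : ℂ, ‖ζ‖ ≤ 1 → dist (z0 + ρ * ζ) z0 < R := by
        intro ζ hζ
        rw [dist_eq_norm, add_sub_cancel_left, norm_mul, Complex.norm_real, Real.norm_eq_abs,
          abs_of_pos hρ]
        have := mul_le_of_le_one_right hρ.le hζ
        linarith
      have hlc : Continuous fun ζ : ℂ => z0 + ρ * ζ := by fun_prop
      have hlr : ∀ x : ℂ, ContDiffAt ℝ 2 (fun ζ : ℂ => z0 + ρ * ζ) x := fun x =>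
        contDiffAt_const.add (contDiffAt_const.mul contDiffAt_id)
      have hlcx : ∀ x : ℂ, ContDiffAt ℂ ω (fun ζ : ℂ => z0 + ρ * ζ) x := fun x =>
        contDiffAt_const.add (contDiffAt_const.mul contDiffAt_id)
      -- `D` is harmonic near `z0`
      have hDh : InnerProductSpace.HarmonicOnNhd D (Metric.closedBall z0 |ρ|) := by
        intro x hx
        rw [abs_of_pos hρ, Metric.mem_closedBall] at hx
        have hxR : dist x z0 < R := lt_of_le_of_lt hx hρR
        refine ⟨hsmD x hxR, ?_⟩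
        have h1 : ∀ᶠ ζ in 𝓝 x, dist ζ z0 < R :=
          (Metric.isOpen_ball (α := ℂ) (ε := R)).mem_nhds (Metric.mem_ball.2 hxR)
        filter_upwards [h1] with ζ hζ
        exact hlap ζ hζ
      have hmean0 := InnerProductSpace.HarmonicOnNhd.circleAverage_eq hDh
      have hmean : Real.circleAverage (fun ζ : ℂ => D (z0 + ρ * ζ)) 0 1 = D z0 := by
        rw [← hmean0]
        simp only [Real.circleAverage_def]
        congr 2
        ext t
        congr 1
        simp [circleMap]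
      have h1 := hpshN (fun ζ : ℂ => H (z0 + ρ * ζ)) fun ζ hζ => by
        obtain ⟨⟨⟨a1, a2⟩, a3⟩, a5⟩ := hball (hin ζ hζ)
        refine ⟨?_, a5⟩
        exact ContMDiffAt.comp ζ (hHan _ a1) (contMDiffAt_iff_contDiffAt.2 (hlcx ζ))
      simp only [mul_zero, add_zero] at h1
      have hsph : ∀ ζ ∈ Metric.sphere (0 : ℂ) |(1 : ℝ)|, ‖ζ‖ ≤ 1 := by
        intro ζ hζ
        rw [abs_one, mem_sphere_zero_iff_norm] at hζ
        exact hζ.le
      have hkat : ∀ ζ : ℂ, ‖ζ‖ ≤ 1 → ContinuousAt (fun ζ : ℂ => φ (H (z0 + ρ * ζ))) ζ := by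
        intro ζ hζ
        obtain ⟨⟨⟨a1, a2⟩, a3⟩, a5⟩ := hball (hin ζ hζ)
        have k1 : ContinuousAt (fun ζ : ℂ => H (z0 + ρ * ζ)) ζ :=
          ContinuousAt.comp (f := fun ζ : ℂ => z0 + ρ * ζ) (g := H)
            (hHan _ a1).continuousAt hlc.continuousAt
        exact ContinuousAt.comp (f := fun ζ : ℂ => H (z0 + ρ * ζ)) (g := φ)
          hφ.1.continuousAt k1
      have cD : CircleIntegrable (fun ζ : ℂ => D (z0 + ρ * ζ)) 0 1 := by
        refine ContinuousOn.circleIntegrable' fun ζ hζ => ?_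
        exact (ContinuousAt.comp (f := fun ζ : ℂ => z0 + ρ * ζ) (g := D)
          (hsmD _ (hin ζ (hsph ζ hζ))).continuousAt hlc.continuousAt).continuousWithinAt
      have cR : CircleIntegrable (fun ζ : ℂ => φ (H (z0 + ρ * ζ))) 0 1 := by
        refine ContinuousOn.circleIntegrable' fun ζ hζ => ?_
        exact (hkat ζ (hsph ζ hζ)).continuousWithinAt
      have h2 : (fun ζ : ℂ => θ.pot (h s0) (H (z0 + ρ * ζ)) + φ (H (z0 + ρ * ζ))) =
          fun ζ : ℂ => D (z0 + ρ * ζ) + φ (H (z0 + ρ * ζ)) := by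
        funext ζ
        rw [hD]
      have h3 : θ.pot (h s0) (H z0) + φ (H z0) = D z0 + φ (H z0) := by
        rw [hD]
      rw [h2, h3, Real.circleAverage_fun_add cD cR, hmean] at h1
      have h4 : φ (h sM) ≤ Real.circleAverage (fun ζ : ℂ => φ (H (z0 + ρ * ζ))) 0 1 := by
        have h5 := le_of_add_le_add_left h1
        rwa [hH0, hs0'] at h5
      refine circ (fun ζ : ℂ => φ (H (z0 + ρ * ζ))) 0 1 (φ (h sM)) one_pos ?_ ?_ h4
      · rw [continuous_iff_continuousAt]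
        intro t
        refine ContinuousAt.comp (f := fun t : ℝ => circleMap (0 : ℂ) 1 t)
          (g := fun ζ : ℂ => φ (H (z0 + ρ * ζ))) (hkat _ ?_) (continuous_circleMap _ _).continuousAt
        simp [circleMap]
      · intro y _
        rw [hHd]
        exact hmax _
    -- the conclusion near `s0`
    have hnear : ∀ z : ℂ, dist z z0 < R → φ (H z) = φ (h sM) := by
      intro z hz
      rcases eq_or_ne z z0 with rfl | hne
      · rw [hH0, hs0']
      · have hpos : 0 < dist z z0 := dist_pos.2 hne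
        have hd : ((dist z z0 : ℝ) : ℂ) ≠ 0 := by exact_mod_cast hpos.ne'
        have h1 := sub (dist z z0) hpos hz ((z - z0) / (dist z z0 : ℝ)) (by
          rw [sub_zero, norm_div, Complex.norm_real, Real.norm_eq_abs, abs_of_pos hpos,
            ← dist_eq_norm, div_self hpos.ne'])
        rw [mul_div_cancel₀ _ hd, add_sub_cancel] at h1
        exact h1
    have hes : ∀ᶠ s in 𝓝 s0, dist (e s) z0 < R := by
      have h1 : ContinuousAt e s0 := e.continuousAt hsrc
      have h2 : ∀ᶠ z in 𝓝 (e s0), dist z z0 < R := by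
        rw [← hz0]
        exact Metric.ball_mem_nhds z0 hR
      exact h1.eventually h2
    have hsr : ∀ᶠ s in 𝓝 s0, s ∈ e.source := e.open_source.mem_nhds hsrc
    filter_upwards [hes, hsr] with s h1 h2
    have h3 := hnear (e s) h1
    rw [hHd] at h3
    show φ (h s) = φ (h sM)
    rw [← h3]
    show φ (h s) = φ (h (e.symm (e s)))
    rw [e.left_inv h2]
  have hu : {s | φ (h s) = φ (h sM)} = univ := IsClopen.eq_univ ⟨hcl, hop⟩ ⟨sM, rfl⟩
  have a1 : s1 ∈ {s | φ (h s) = φ (h sM)} := by rw [hu]; trivial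
  have a2 : s2 ∈ {s | φ (h s) = φ (h sM)} := by rw [hu]; trivial
  exact (show φ (h s1) = φ (h sM) from a1).trans (show φ (h s2) = φ (h sM) from a2).symm

end Pool.Agent.Y684.RB
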